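import Pool.Agent.H66.BP.Targets

/-!
# BP modules HS, BACK, HH: support functions (helper15)
-/

set_option autoImplicit false

open MeasureTheory Set Filter Topology Metric
open scoped Real ENNReal NNReal ComplexConjugate
open Pool.Agent.H66.BP

namespace Pool.Agent.H15.BP

noncomputable section

/-- the linear functional -/
def L (u : ℝ × ℝ) (y : E) : ℝ := u.1 * y 0 + u.2 * y 1

theorem L_cont (u : ℝ × ℝ) : Continuous (L u) := by
  unfold L
  fun_prop

theorem L_le (u : ℝ × ℝ) (y : E) : |L u y| ≤ 2 * ‖u‖ * ‖y‖ := by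
  unfold L
  have h0 : |y 0| ≤ ‖y‖ := PiLp.norm_apply_le y 0
  have h1 : |y 1| ≤ ‖y‖ := PiLp.norm_apply_le y 1
  have h2 : |u.1| ≤ ‖u‖ := norm_fst_le u
  have h3 : |u.2| ≤ ‖u‖ := norm_snd_le u
  calc |u.1 * y 0 + u.2 * y 1| ≤ |u.1 * y 0| + |u.2 * y 1| := abs_add_le _ _
    _ = |u.1| * |y 0| + |u.2| * |y 1| := by rw [abs_mul, abs_mul]
    _ ≤ ‖u‖ * ‖y‖ + ‖u‖ * ‖y‖ :=
        add_le_add (mul_le_mul h2 h0 (abs_nonneg _) (norm_nonneg _))
          (mul_le_mul h3 h1 (abs_nonneg _) (norm_nonneg _))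
    _ = 2 * ‖u‖ * ‖y‖ := by ring

theorem hK_eq (K : Set E) (u : ℝ × ℝ) : hK K u = sSup (L u '' K) := rfl

theorem body_ne {K : Set E} (hK' : IsBody K) : K.Nonempty := hK'.nonempty.mono interior_subset

theorem bdd {K : Set E} (hb : IsBody K) (u : ℝ × ℝ) : BddAbove (L u '' K) :=
  (hb.compact.image (L_cont u)).bddAbove

theorem le_hK {K : Set E} (hb : IsBody K) (u : ℝ × ℝ) {y : E} (hy : y ∈ K) : L u y ≤ hK K u :=
  le_csSup (bdd hb u) (mem_image_of_mem _ hy)

theorem exists_max {K : Set E} (hb : IsBody K) (u : ℝ × ℝ) : ∃ y ∈ K, hK K u = L u y := by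
  obtain ⟨y, hy, hm⟩ := hb.compact.exists_isMaxOn (body_ne hb) (L_cont u).continuousOn
  refine ⟨y, hy, le_antisymm ?_ (le_hK hb u hy)⟩
  apply csSup_le ((body_ne hb).image _)
  rintro _ ⟨z, hz, rfl⟩
  exact hm hz

theorem hs_add {K : Set E} (hb : IsBody K) (u v : ℝ × ℝ) : hK K (u + v) ≤ hK K u + hK K v := by
  obtain ⟨y, hy, h⟩ := exists_max hb (u + v)
  have h1 := le_hK hb u hy
  have h2 := le_hK hb v hy
  have h3 : L (u + v) y = L u y + L v y := by
    unfold L
    rw [Prod.fst_add, Prod.snd_add]; ring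
  rw [h, h3]
  linarith

theorem L_smul (c : ℝ) (u : ℝ × ℝ) (y : E) : L (c • u) y = c * L u y := by
  unfold L
  rw [Prod.smul_fst, Prod.smul_snd, smul_eq_mul, smul_eq_mul]; ring

theorem hs_smul {K : Set E} (hb : IsBody K) (c : ℝ) (u : ℝ × ℝ) (hc : 0 ≤ c) :
    hK K (c • u) = c * hK K u := by
  apply le_antisymm
  · obtain ⟨y, hy, h⟩ := exists_max hb (c • u)
    rw [h, L_smul]
    exact mul_le_mul_of_nonneg_left (le_hK hb u hy) hc
  · obtain ⟨y, hy, h⟩ := exists_max hb u
    rw [h, ← L_smul]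
    exact le_hK hb _ hy

theorem hs_bd {K : Set E} (hb : IsBody K) : ∃ M : ℝ, 0 ≤ M ∧ ∀ u, |hK K u| ≤ M * ‖u‖ := by
  obtain ⟨R, hR⟩ := hb.compact.isBounded.exists_norm_le
  have hR0 : 0 ≤ R := (norm_nonneg _).trans (hR _ (body_ne hb).some_mem)
  refine ⟨2 * R, by positivity, fun u => ?_⟩
  obtain ⟨y, hy, h⟩ := exists_max hb u
  rw [h]
  refine (L_le u y).trans ?_
  have := mul_le_mul_of_nonneg_left (hR y hy) (by positivity : 0 ≤ 2 * ‖u‖)
  nlinarith

theorem hs_cont {K : Set E} (hb : IsBody K) : Continuous (hK K) := by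
  obtain ⟨M, hM, h⟩ := hs_bd hb
  have hl : LipschitzWith ⟨M, hM⟩ (hK K) := by
    apply LipschitzWith.of_le_add_mul
    intro x y
    have h1 := hs_add hb y (x - y)
    rw [add_sub_cancel] at h1
    have h2 := (abs_le.1 (h (x - y))).2
    rw [dist_eq_norm]
    change hK K x ≤ hK K y + M * ‖x - y‖
    linarith
  exact hl.continuous

theorem hs_pos {K : Set E} (hb : IsBody K) (u : ℝ × ℝ) (hu : u ≠ 0) :
    0 < hK K u + hK K (-u) := by
  obtain ⟨c, hc⟩ := hb.nonempty
  rw [mem_interior_iff_mem_nhds] at hc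
  let v : E := !₂[u.1, u.2]
  have hcont : Tendsto (fun t : ℝ => c + t • v) (𝓝 0) (𝓝 c) := by
    have : Continuous (fun t : ℝ => c + t • v) := by fun_prop
    have h := this.tendsto 0
    simpa using h
  have hcont' : Tendsto (fun t : ℝ => c - t • v) (𝓝 0) (𝓝 c) := by
    have : Continuous (fun t : ℝ => c - t • v) := by fun_prop
    have h := this.tendsto 0
    simpa using h
  have hev : ∀ᶠ t in 𝓝[>] (0:ℝ), c + t • v ∈ K ∧ c - t • v ∈ K ∧ 0 < t := by
    have e1 : ∀ᶠ t in 𝓝 (0:ℝ), c + t • v ∈ K := hcont hc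
    have e2 : ∀ᶠ t in 𝓝 (0:ℝ), c - t • v ∈ K := hcont' hc
    have e3 : ∀ᶠ t in 𝓝[>] (0:ℝ), 0 < t := self_mem_nhdsWithin
    exact (e1.filter_mono nhdsWithin_le_nhds).and ((e2.filter_mono nhdsWithin_le_nhds).and e3)
  obtain ⟨t, h1, h2, h3⟩ := hev.exists
  have h4 := le_hK hb u h1
  have h5 := le_hK hb (-u) h2
  have h6 : L u (c + t • v) + L (-u) (c - t • v) = 2 * t * (u.1 ^ 2 + u.2 ^ 2) := by
    unfold L
    simp [v]
    ring
  have h7 : 0 < u.1 ^ 2 + u.2 ^ 2 := by
    rcases eq_or_ne u.1 0 with h | h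
    · have : u.2 ≠ 0 := fun h' => hu (Prod.ext h h')
      positivity
    · positivity
  have h8 : 0 < 2 * t * (u.1 ^ 2 + u.2 ^ 2) := by positivity
  linarith

theorem hs : T_HS := fun _ hb =>
  ⟨hs_add hb, hs_smul hb, hs_bd hb, hs_cont hb, hs_pos hb⟩

/-! ### BACK -/

theorem mem_iff {K : Set E} (hb : IsBody K) (x : E) : x ∈ K ↔ ∀ u, L u x ≤ hK K u := by
  refine ⟨fun hx u => le_hK hb u hx, fun h => ?_⟩
  by_contra hx
  obtain ⟨f, c, h1, h2⟩ := geometric_hahn_banach_closed_point hb.convex hb.compact.isClosed hx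
  have hf : ∀ y : E, f y = L (f (EuclideanSpace.single 0 1), f (EuclideanSpace.single 1 1)) y := by
    intro y
    have hy : y = y 0 • (EuclideanSpace.single 0 (1:ℝ) : E) + y 1 • EuclideanSpace.single 1 (1:ℝ) := by
      ext i
      fin_cases i <;> simp
    conv_lhs => rw [hy]
    rw [map_add, map_smul, map_smul]
    unfold L
    simp only [smul_eq_mul]
    ring
  have h3 := h (f (EuclideanSpace.single 0 1), f (EuclideanSpace.single 1 1))
  rw [← hf] at h3
  obtain ⟨y, hy, h4⟩ := exists_max hb (f (EuclideanSpace.single 0 1), f (EuclideanSpace.single 1 1))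
  rw [h4, ← hf] at h3
  have h5 := h1 y hy
  linarith

theorem back : T_BACK := by
  intro K H hbK hbH t
  constructor
  · intro h
    refine ⟨!₂[t.1, t.2], ?_⟩
    ext x
    rw [mem_iff hbH]
    constructor
    · intro hx
      refine ⟨x - !₂[t.1, t.2], ?_, by simp⟩
      rw [mem_iff hbK]
      intro u
      have h1 := hx u
      rw [h u] at h1
      have h2 : L u (x - !₂[t.1, t.2]) = L u x - (t.1 * u.1 + t.2 * u.2) := by
        unfold L
        simp
        ring
      rw [h2]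
      linarith
    · rintro ⟨y, hy, rfl⟩ u
      rw [h u]
      have h1 := le_hK hbK u hy
      have h2 : L u (y + !₂[t.1, t.2]) = L u y + (t.1 * u.1 + t.2 * u.2) := by
        unfold L
        simp
        ring
      change L u (y + !₂[t.1, t.2]) ≤ _
      rw [h2]
      linarith
  · intro h
    refine ⟨!₂[t.1, t.2], ?_⟩
    ext x
    rw [mem_iff hbH]
    constructor
    · intro hx
      refine ⟨!₂[t.1, t.2] - x, ?_, by simp⟩
      rw [mem_iff hbK]
      intro u
      have h1 := hx (-u)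
      rw [h (-u), neg_neg] at h1
      have h2 : L u (!₂[t.1, t.2] - x) = L (-u) x + (t.1 * u.1 + t.2 * u.2) := by
        unfold L
        simp
        ring
      rw [h2]
      simp only [Prod.fst_neg, Prod.snd_neg] at h1
      linarith
    · rintro ⟨y, hy, rfl⟩ u
      rw [h u]
      have h1 := le_hK hbK (-u) hy
      have h2 : L u (-y + !₂[t.1, t.2]) = L (-u) y + (t.1 * u.1 + t.2 * u.2) := by
        unfold L
        simp
        ring
      change L u (-y + !₂[t.1, t.2]) ≤ _
      rw [h2]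
      linarith

/-! ### HH -/

/-- the integrand -/
def hz (K : Set E) (z : ℂ × ℂ) (s : ℂ) : ℝ := hK K ((s * z.1).re, (s * z.2).re)

theorem hz_cont {K : Set E} (hb : IsBody K) (z : ℂ × ℂ) : Continuous (hz K z) := by
  unfold hz
  have h := hs_cont hb
  fun_prop

theorem hz_int {K : Set E} (hb : IsBody K) (z : ℂ × ℂ) : CircleIntegrable (hz K z) 0 1 :=
  (hz_cont hb z).continuousOn.circleIntegrable'

theorem hh_eq (K : Set E) (z : ℂ × ℂ) : hh K z = Real.circleAverage (hz K z) 0 1 := rfl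

theorem hh_add {K : Set E} (hb : IsBody K) (z z' : ℂ × ℂ) : hh K (z + z') ≤ hh K z + hh K z' := by
  rw [hh_eq, hh_eq, hh_eq, ← Real.circleAverage_add (hz_int hb z) (hz_int hb z')]
  refine Real.circleAverage_mono (hz_int hb _) ((hz_int hb z).add (hz_int hb z')) ?_
  intro s _
  have h := hs_add hb ((s * z.1).re, (s * z.2).re) ((s * z'.1).re, (s * z'.2).re)
  unfold hz
  simp only [Pi.add_apply, Prod.fst_add, Prod.snd_add, mul_add, Complex.add_re]
  exact h

theorem hh_smul {K : Set E} (hb : IsBody K) (c : ℂ) (z : ℂ × ℂ) :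
    hh K (c • z) = ‖c‖ * hh K z := by
  have hr : Real.circleAverage (hz K z) 0 1 =
      (2 * π)⁻¹ • ∫ θ in (0:ℝ)..2 * π, hz K z (circleMap 0 1 (θ + c.arg)) :=
    Real.circleAverage_eq_integral_add c.arg
  have hl : Real.circleAverage (hz K (c • z)) 0 1 =
      (2 * π)⁻¹ • ∫ θ in (0:ℝ)..2 * π, hz K (c • z) (circleMap 0 1 θ) := rfl
  have key : ∀ θ : ℝ, hz K (c • z) (circleMap 0 1 θ) =
      ‖c‖ * hz K z (circleMap 0 1 (θ + c.arg)) := by
    intro θ
    have hc : circleMap 0 1 θ * c = ‖c‖ * circleMap 0 1 (θ + c.arg) := by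
      conv_lhs => rw [← Complex.norm_mul_exp_arg_mul_I c]
      simp only [circleMap_zero, Complex.ofReal_one, one_mul]
      push_cast
      rw [add_mul, Complex.exp_add]
      ring
    unfold hz
    simp only [Prod.smul_fst, Prod.smul_snd, smul_eq_mul]
    rw [← hs_smul hb _ _ (norm_nonneg c)]
    congr 1
    ext
    · simp only [Prod.smul_fst, smul_eq_mul]
      rw [← mul_assoc, hc, mul_assoc, Complex.re_ofReal_mul]
    · simp only [Prod.smul_snd, smul_eq_mul]
      rw [← mul_assoc, hc, mul_assoc, Complex.re_ofReal_mul]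
  rw [hh_eq, hh_eq, hr, hl]
  simp_rw [key]
  rw [intervalIntegral.integral_const_mul, smul_eq_mul, smul_eq_mul]
  ring

theorem hh_bd {K : Set E} (hb : IsBody K) : ∃ M : ℝ, 0 ≤ M ∧ ∀ z, hh K z ≤ M * ‖z‖ := by
  obtain ⟨M, hM, h⟩ := hs_bd hb
  refine ⟨M, hM, fun z => ?_⟩
  rw [hh_eq]
  refine Real.circleAverage_mono_on_of_le_circle (hz_int hb z) ?_
  intro s hs
  rw [mem_sphere, dist_zero_right, abs_one] at hs
  refine ((abs_le.1 (h _)).2).trans (mul_le_mul_of_nonneg_left ?_ hM)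
  rw [Prod.norm_def, Prod.norm_def]
  refine max_le_max ?_ ?_
  · calc ‖(s * z.1).re‖ ≤ ‖s * z.1‖ := Complex.abs_re_le_norm _
      _ = ‖z.1‖ := by rw [norm_mul, hs, one_mul]
  · calc ‖(s * z.2).re‖ ≤ ‖s * z.2‖ := Complex.abs_re_le_norm _
      _ = ‖z.2‖ := by rw [norm_mul, hs, one_mul]

theorem int_cos_pos : ∫ θ in (0:ℝ)..2 * π, max (Real.cos θ) 0 = 2 := by
  have hpi := Real.pi_pos
  have hc : Continuous (fun θ : ℝ => max (Real.cos θ) 0) := by fun_prop
  have hper : Function.Periodic (fun θ : ℝ => max (Real.cos θ) 0) (2 * π) := fun x => by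
    simp [Real.cos_periodic x]
  have h0 := hper.intervalIntegral_add_eq 0 (-(π / 2))
  rw [zero_add] at h0
  rw [h0, ← intervalIntegral.integral_add_adjacent_intervals (b := π / 2)
    (hc.intervalIntegrable _ _) (hc.intervalIntegrable _ _)]
  have h1 : ∫ θ in (-(π / 2))..(π / 2), max (Real.cos θ) 0 = 2 := by
    have : ∫ θ in (-(π / 2))..(π / 2), max (Real.cos θ) 0 =
        ∫ θ in (-(π / 2))..(π / 2), Real.cos θ := by
      refine intervalIntegral.integral_congr fun θ hθ => ?_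
      rw [uIcc_of_le (by linarith)] at hθ
      exact max_eq_left (Real.cos_nonneg_of_mem_Icc hθ)
    rw [this, integral_cos, Real.sin_neg, Real.sin_pi_div_two]
    norm_num
  have h2 : ∫ θ in (π / 2)..(-(π / 2) + 2 * π), max (Real.cos θ) 0 = 0 := by
    have : ∫ θ in (π / 2)..(-(π / 2) + 2 * π), max (Real.cos θ) 0 =
        ∫ θ in (π / 2)..(-(π / 2) + 2 * π), (0:ℝ) := by
      refine intervalIntegral.integral_congr fun θ hθ => ?_
      rw [uIcc_of_le (by linarith)] at hθ
      refine max_eq_right (Real.cos_nonpos_of_pi_div_two_le_of_le hθ.1 ?_)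
      have := hθ.2
      linarith
    rw [this]
    simp
  rw [h1, h2, add_zero]

theorem hh_real {K : Set E} (hb : IsBody K) (x : ℝ × ℝ) :
    hh K (cx x) = (hK K x + hK K (-x)) / π := by
  have hpi := Real.pi_pos
  have h1 : ∀ θ : ℝ, hz K (cx x) (circleMap 0 1 θ) =
      max (Real.cos θ) 0 * hK K x + max (Real.cos (θ + π)) 0 * hK K (-x) := by
    intro θ
    have h2 : (((circleMap 0 1 θ) * (cx x).1).re, ((circleMap 0 1 θ) * (cx x).2).re) =
        Real.cos θ • x := by
      have h3 : (circleMap 0 1 θ).re = Real.cos θ := by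
        simp [circleMap, Complex.exp_ofReal_mul_I_re]
      ext
      · simp only [cx, Complex.re_mul_ofReal, h3, Prod.smul_fst, smul_eq_mul]
      · simp only [cx, Complex.re_mul_ofReal, h3, Prod.smul_snd, smul_eq_mul]
    unfold hz
    rw [h2, Real.cos_add_pi]
    rcases le_total 0 (Real.cos θ) with h | h
    · rw [max_eq_left h, max_eq_right (by linarith), zero_mul, add_zero, hs_smul hb _ _ h]
    · rw [max_eq_right h, max_eq_left (by linarith), zero_mul, zero_add,
        ← hs_smul hb _ _ (by linarith), smul_neg, neg_smul, neg_neg]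
  rw [hh_eq, Real.circleAverage_def, smul_eq_mul]
  rw [intervalIntegral.integral_congr (g := fun θ => max (Real.cos θ) 0 * hK K x +
    max (Real.cos (θ + π)) 0 * hK K (-x)) (fun θ _ => h1 θ)]
  have hc : Continuous (fun θ : ℝ => max (Real.cos θ) 0) := by fun_prop
  have hc' : Continuous (fun θ : ℝ => max (Real.cos (θ + π)) 0) := by fun_prop
  have hi1 : IntervalIntegrable (fun θ : ℝ => max (Real.cos θ) 0 * hK K x) volume 0 (2 * π) :=
    (hc.mul continuous_const).intervalIntegrable _ _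
  have hi2 : IntervalIntegrable (fun θ : ℝ => max (Real.cos (θ + π)) 0 * hK K (-x)) volume 0
      (2 * π) := (hc'.mul continuous_const).intervalIntegrable _ _
  rw [intervalIntegral.integral_add hi1 hi2,
    intervalIntegral.integral_mul_const, intervalIntegral.integral_mul_const, int_cos_pos]
  have h3 : ∫ θ in (0:ℝ)..2 * π, max (Real.cos (θ + π)) 0 = 2 := by
    rw [intervalIntegral.integral_comp_add_right (fun θ => max (Real.cos θ) 0)]
    have hper : Function.Periodic (fun θ : ℝ => max (Real.cos θ) 0) (2 * π) := fun x => by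
      simp [Real.cos_periodic x]
    have h0 := hper.intervalIntegral_add_eq 0 π
    rw [zero_add] at h0
    rw [zero_add, add_comm (2 * π) π, ← h0, int_cos_pos]
  rw [h3]
  field_simp

theorem hh_all : T_HH := fun _ hb => ⟨hh_add hb, hh_smul hb, hh_bd hb, hh_real hb⟩

end

end Pool.Agent.H15.BP
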