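import Pool.Agent.H66.BP.Targets

/-!
# BP modules PAR, WQ (helper15)
-/

set_option autoImplicit false

open MeasureTheory Set Filter Topology Metric
open scoped Real ENNReal NNReal ComplexConjugate
open Pool.Agent.H66.BP

namespace Pool.Agent.H15.BP

noncomputable section

/-- asymptotic comparison up to `o(t)` -/
def AL (A B : ℝ → ℝ) : Prop := ∀ ε > 0, ∀ᶠ t in atTop, A t ≤ B t + ε * t

theorem AL.trans {A B C : ℝ → ℝ} (h1 : AL A B) (h2 : AL B C) : AL A C := by
  intro ε hε
  filter_upwards [h1 (ε / 2) (by linarith), h2 (ε / 2) (by linarith)] with t a b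
  linarith

theorem AL.add {A B A' B' : ℝ → ℝ} (h1 : AL A B) (h2 : AL A' B') :
    AL (fun t => A t + A' t) (fun t => B t + B' t) := by
  intro ε hε
  filter_upwards [h1 (ε / 2) (by linarith), h2 (ε / 2) (by linarith)] with t a b
  linarith

theorem AL.of_le {A B : ℝ → ℝ} (h : ∀ t, 0 < t → A t ≤ B t) : AL A B := by
  intro ε hε
  filter_upwards [eventually_gt_atTop (0:ℝ)] with t ht
  have := h t ht
  have h2 : 0 < ε * t := mul_pos hε ht
  linarith

theorem log_small (C N : ℝ) (hN : 0 ≤ N) : ∀ ε > 0, ∀ᶠ t in atTop,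
    C * Real.log (2 + t * N) ≤ ε * t := by
  intro ε hε
  have h1 : Tendsto (fun t : ℝ => 2 + t * (N + 1)) atTop atTop := by
    apply tendsto_atTop_add_const_left
    exact tendsto_id.atTop_mul_const (by linarith)
  have h2 : ∀ᶠ x in atTop, |Real.log x| ≤ (ε / ((|C| + 1) * (2 + (N + 1)))) * |x| := by
    have := Real.isLittleO_log_id_atTop.bound
      (show 0 < ε / ((|C| + 1) * (2 + (N + 1))) by positivity)
    simpa using this
  filter_upwards [h1.eventually h2, eventually_ge_atTop (1:ℝ)] with t ht ht1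
  have h3 : Real.log (2 + t * N) ≤ Real.log (2 + t * (N + 1)) := by
    apply Real.log_le_log
    · positivity
    · nlinarith
  have h4 : 0 ≤ Real.log (2 + t * N) := by
    apply Real.log_nonneg
    nlinarith [mul_nonneg (by linarith : (0:ℝ) ≤ t) hN]
  have h5 : 0 ≤ Real.log (2 + t * (N + 1)) := h4.trans h3
  have h6 : 0 < 2 + t * (N + 1) := by positivity
  rw [abs_of_nonneg h5, abs_of_pos h6] at ht
  have h7 : 2 + t * (N + 1) ≤ (2 + (N + 1)) * t := by nlinarith
  calc C * Real.log (2 + t * N) ≤ |C| * Real.log (2 + t * N) :=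
        mul_le_mul_of_nonneg_right (le_abs_self _) h4
    _ ≤ (|C| + 1) * Real.log (2 + t * (N + 1)) := by
        apply mul_le_mul (by linarith) h3 h4 (by positivity)
    _ ≤ (|C| + 1) * ((ε / ((|C| + 1) * (2 + (N + 1)))) * ((2 + (N + 1)) * t)) := by
        apply mul_le_mul_of_nonneg_left _ (by positivity)
        refine ht.trans ?_
        apply mul_le_mul_of_nonneg_left h7 (by positivity)
    _ = ε * t := by
        field_simp

/-- the data with the roles of `P` and `Q` exchanged -/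
def swap (D : JData) : JData where
  JP := D.JQ
  JQ := D.JP
  m := D.m
  M := D.M
  C := D.C
  hM := D.hM
  hC := D.hC
  P0 := D.Q0
  Q0 := D.P0
  Psub := D.Qsub
  Qsub := D.Psub
  Phom := D.Qhom
  Qhom := D.Phom
  Pzero := D.Qzero
  Qzero := D.Pzero
  Pmono := D.Qmono
  Qmono := D.Pmono
  upper := fun z t ht => by rw [add_comm]; exact D.upper z t ht
  lower := fun x t ht => by
    have := D.lower x t ht
    rw [add_comm (D.JQ (cx x) t)]
    exact this
  madd := D.madd
  mhom := D.mhom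
  mbd := D.mbd

theorem cx_smul (s : ℝ) (u : ℝ × ℝ) : cx (s • u) = (s : ℂ) • cx u := by
  unfold cx
  ext <;> simp

theorem small_smul (D : JData) (u : ℝ × ℝ) (h : AL (D.JP (cx u)) (fun _ => 0)) (s : ℝ) :
    AL (D.JP (cx (s • u))) (fun _ => 0) := by
  intro ε hε
  rw [cx_smul]
  by_cases hs : s = 0
  · subst hs
    filter_upwards [eventually_gt_atTop (0:ℝ)] with t ht
    rw [Complex.ofReal_zero, zero_smul, D.Pzero]
    have := mul_pos hε ht
    linarith
  · have hs' : 0 < |s| := abs_pos.2 hs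
    have h1 := h (ε / |s|) (by positivity)
    have h2 : Tendsto (fun t : ℝ => |s| * t) atTop atTop := tendsto_id.const_mul_atTop hs'
    filter_upwards [h2.eventually h1] with t ht
    rw [D.Phom _ _ _ (by exact_mod_cast hs), Complex.norm_real, Real.norm_eq_abs]
    refine ht.trans (le_of_eq ?_)
    field_simp

theorem par_aux (hS2 : T_S2) (D : JData) (u u' : ℝ × ℝ) (h : AL (D.JP (cx u)) (fun _ => 0))
    (h' : AL (D.JQ (cx u')) (fun _ => 0)) (α β : ℝ) :
    AL (D.JP (cx (α • u + β • u'))) (fun t => t * (|β| * D.m (cx u'))) ∧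
    AL (fun t => t * (|β| * D.m (cx u'))) (D.JP (cx (α • u + β • u'))) := by
  have hm : D.m (cx (β • u')) = |β| * D.m (cx u') := by
    rw [cx_smul, D.mhom, Complex.norm_real, Real.norm_eq_abs]
  have h0 : ∀ s : ℝ, ∀ ε > 0, ∀ᶠ t in atTop, D.JP (cx (s • u)) t ≤ ε * t := by
    intro s ε hε
    filter_upwards [small_smul D u h s ε hε] with t ht
    linarith
  have h1 : AL (D.JP (cx (β • u' + α • u))) (D.JP (cx (β • u'))) :=
    hS2 D (α • u) (β • u') (h0 α)
  have h2 : AL (D.JP (cx (β • u'))) (D.JP (cx (β • u' + α • u))) := by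
    have := hS2 D ((-α) • u) (β • u' + α • u) (h0 (-α))
    have e : β • u' + α • u + (-α) • u = β • u' := by
      rw [neg_smul]; abel
    rw [e] at this
    exact this
  rw [add_comm (β • u')] at h1 h2
  have h3 : AL (D.JP (cx (β • u'))) (fun t => t * (|β| * D.m (cx u'))) := by
    apply AL.of_le
    intro t ht
    rw [← hm]
    have := D.upper (cx (β • u')) t ht
    have h4 := D.Q0 (cx (β • u')) t
    linarith
  have h5 : AL (D.JQ (cx (β • u'))) (fun _ => 0) := small_smul (swap D) u' h' β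
  have h6 : AL (fun t => t * (|β| * D.m (cx u'))) (D.JP (cx (β • u'))) := by
    intro ε hε
    filter_upwards [h5 (ε / 2) (by linarith), eventually_gt_atTop (0:ℝ),
      log_small D.C ‖β • u'‖ (norm_nonneg _) (ε / 2) (by linarith)] with t ht ht0 hl
    have h7 := D.lower (β • u') t ht0
    rw [hm] at h7
    linarith
  exact ⟨h1.trans h3, h6.trans h2⟩

theorem eq_of_AL {a b : ℝ} (h : AL (fun t => t * a) (fun t => t * b)) : a ≤ b := by
  by_contra hlt
  push Not at hlt
  obtain ⟨t, ht, ht0⟩ := ((h ((a - b) / 2) (by linarith)).and (eventually_gt_atTop (0:ℝ))).exists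
  nlinarith [mul_pos ht0 (sub_pos.2 hlt)]

theorem par (hS2 : T_S2) : T_PAR := by
  intro D u u' h h' α β
  have hA : AL (D.JP (cx u)) (fun _ => 0) := by
    intro ε hε
    filter_upwards [h ε hε] with t ht
    linarith
  have hA' : AL (D.JQ (cx u')) (fun _ => 0) := by
    intro ε hε
    filter_upwards [h' ε hε] with t ht
    linarith
  obtain ⟨a1, a2⟩ := par_aux hS2 D u u' hA hA' α β
  obtain ⟨b1, b2⟩ := par_aux hS2 (swap D) u' u hA' hA β α
  have b1' : AL (D.JQ (cx (α • u + β • u'))) (fun t => t * (|α| * D.m (cx u))) := by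
    rw [add_comm (α • u)]; exact b1
  have b2' : AL (fun t => t * (|α| * D.m (cx u))) (D.JQ (cx (α • u + β • u'))) := by
    rw [add_comm (α • u)]; exact b2
  have c1 := a1.add b1'
  have c2 := a2.add b2'
  have d1 : AL (fun t => D.JP (cx (α • u + β • u')) t + D.JQ (cx (α • u + β • u')) t)
      (fun t => t * D.m (cx (α • u + β • u'))) := AL.of_le (fun t ht => D.upper _ t ht)
  have d2 : AL (fun t => t * D.m (cx (α • u + β • u')))
      (fun t => D.JP (cx (α • u + β • u')) t + D.JQ (cx (α • u + β • u')) t) := by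
    intro ε hε
    filter_upwards [eventually_gt_atTop (0:ℝ),
      log_small D.C ‖α • u + β • u'‖ (norm_nonneg _) ε hε] with t ht0 hl
    have h7 := D.lower (α • u + β • u') t ht0
    linarith
  have e1 := d2.trans c1
  have e2 := c2.trans d1
  apply le_antisymm
  · apply eq_of_AL
    refine e1.trans (AL.of_le fun t _ => le_of_eq (by ring))
  · apply eq_of_AL
    refine AL.trans (AL.of_le fun t _ => le_of_eq (by ring)) e2

/-! ### WQ -/

theorem cx_one_norm (w w' : ℝ) : ‖cx (1, w) - (1 : ℂ) • cx (1, w')‖ = |w - w'| := by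
  unfold cx
  rw [one_smul, Prod.norm_def]
  simp only [Prod.fst_sub, Prod.snd_sub, sub_self, norm_zero]
  rw [← Complex.ofReal_sub, Complex.norm_real, Real.norm_eq_abs]
  exact max_eq_right (abs_nonneg _)

theorem cx_one_le (w : ℝ) : ‖cx (1, w)‖ ≤ 1 + |w| := by
  unfold cx
  rw [Prod.norm_def]
  apply max_le
  · simp
  · rw [Complex.norm_real, Real.norm_eq_abs]; linarith [abs_nonneg w]

theorem cx_one_pos (w : ℝ) : 0 ≤ ‖cx (1, w)‖ := norm_nonneg _

theorem compare (hEQ : T_EQ) (D : JData) (w₀ : ℝ) (ε : ℝ) (hε : 0 < ε) :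
    ∃ η > 0, ∀ᶠ t in atTop, ∀ w w' : ℝ, |w - w₀| ≤ η → |w' - w₀| ≤ η → |w - w'| ≤ η →
      D.JQ (cx (1, w)) t ≤ D.JQ (cx (1, w')) t + ε * t := by
  set N : ℝ := 2 + |w₀| with hN
  have hN2 : 2 ≤ N := by rw [hN]; linarith [abs_nonneg w₀]
  set M : ℝ := D.M + 1 with hM
  have hM1 : 1 ≤ M := by rw [hM]; linarith [D.hM]
  -- choice of r
  obtain ⟨r, hr0, hr1, hr2⟩ : ∃ r : ℝ, 0 < r ∧ r ≤ 1 / 2 ∧ r * (10 * M * N) ≤ ε := by
    refine ⟨min (1 / 2) (ε / (10 * M * N)), lt_min (by norm_num) (by positivity), min_le_left _ _,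
      ?_⟩
    have := min_le_right (1 / 2 : ℝ) (ε / (10 * M * N))
    rwa [le_div_iff₀ (by positivity)] at this
  refine ⟨r ^ 2, by positivity, ?_⟩
  filter_upwards [eventually_gt_atTop (0:ℝ), log_small (3 * D.C) N (by linarith) (ε / 10)
    (by positivity)] with t ht hl w w' hw hw' hww
  have hr3 : r ^ 2 ≤ 1 / 4 := by nlinarith
  have hz := (hEQ D (1, w') 1 (cx (1, w)) r t ht (by
    rw [cx_one_norm]
    nlinarith)).2
  rw [cx_one_norm, one_smul] at hz
  set d := |w - w'| with hd
  have hd0 : 0 ≤ d := abs_nonneg _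
  have hρ1 : (r + d) / (r - d) ≤ 1 + 4 * r := by
    rw [div_le_iff₀ (by nlinarith)]
    nlinarith
  have hρ0 : 0 ≤ (r + d) / (r - d) := div_nonneg (by linarith) (by nlinarith)
  have hnw : ‖cx (1, w')‖ ≤ N := by
    refine (cx_one_le w').trans ?_
    have : |w'| ≤ |w' - w₀| + |w₀| := by
      have := abs_add_le (w' - w₀) w₀
      rwa [sub_add_cancel] at this
    rw [hN]
    linarith
  have hlog : Real.log (2 + t * ‖cx (1, w')‖) ≤ Real.log (2 + t * N) := by
    apply Real.log_le_log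
    · have := mul_nonneg ht.le (norm_nonneg (cx (1, w')))
      linarith
    · have := mul_le_mul_of_nonneg_left hnw ht.le
      linarith
  have hlog0 : 0 ≤ Real.log (2 + t * ‖cx (1, w')‖) := by
    apply Real.log_nonneg
    have := mul_nonneg ht.le (norm_nonneg (cx (1, w')))
    linarith
  have hJ0 := D.Q0 (cx (1, w')) t
  have hJ1 : D.JQ (cx (1, w')) t ≤ t * (M * N) := by
    have h1 := D.upper (cx (1, w')) t ht
    have h2 := D.P0 (cx (1, w')) t
    have h3 := D.mbd (cx (1, w'))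
    have h4 : D.m (cx (1, w')) ≤ M * N := by
      refine h3.trans ?_
      apply mul_le_mul (by rw [hM]; linarith) hnw (norm_nonneg _) (by linarith)
    have h5 := mul_le_mul_of_nonneg_left h4 ht.le
    linarith
  have hX : 0 ≤ r * D.M * t + D.C * Real.log (2 + t * ‖cx (1, w')‖) + D.JQ (cx (1, w')) t := by
    have h1 : 0 ≤ r * D.M * t := mul_nonneg (mul_nonneg hr0.le D.hM) ht.le
    have h2 := mul_nonneg D.hC hlog0
    linarith
  refine hz.trans ((mul_le_mul_of_nonneg_right hρ1 hX).trans ?_)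
  have h1 : (1 + 4 * r) * (r * D.M * t + D.C * Real.log (2 + t * ‖cx (1, w')‖) +
      D.JQ (cx (1, w')) t) = D.JQ (cx (1, w')) t + 4 * r * D.JQ (cx (1, w')) t +
      (1 + 4 * r) * (r * D.M * t) + (1 + 4 * r) * (D.C * Real.log (2 + t * ‖cx (1, w')‖)) := by
    ring
  rw [h1]
  have h2 : 4 * r * D.JQ (cx (1, w')) t ≤ 4 * r * (t * (M * N)) :=
    mul_le_mul_of_nonneg_left hJ1 (by linarith)
  have h3 : (1 + 4 * r) * (r * D.M * t) ≤ 3 * (r * M * t) := by
    apply mul_le_mul (by linarith) _ (mul_nonneg (mul_nonneg hr0.le D.hM) ht.le) (by norm_num)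
    apply mul_le_mul_of_nonneg_right _ ht.le
    apply mul_le_mul_of_nonneg_left _ hr0.le
    rw [hM]; linarith
  have h4 : (1 + 4 * r) * (D.C * Real.log (2 + t * ‖cx (1, w')‖)) ≤
      3 * D.C * Real.log (2 + t * N) := by
    rw [mul_assoc 3]
    apply mul_le_mul (by linarith) (mul_le_mul_of_nonneg_left hlog D.hC)
      (mul_nonneg D.hC hlog0) (by norm_num)
  have h5 : r * M * t ≤ r * (M * N) * t := by
    apply mul_le_mul_of_nonneg_right _ ht.le
    apply mul_le_mul_of_nonneg_left _ hr0.le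
    nlinarith
  have h6 : r * (10 * M * N) * t ≤ ε * t := mul_le_mul_of_nonneg_right hr2 ht.le
  nlinarith

theorem wq (hEQ : T_EQ) (hVV : T_VV) : T_WQ := by
  intro D w₀ q hq h
  apply hVV (D.JQ (cx (1, w₀))) q hq (D.Qmono _) (D.Q0 _)
  intro ε hε
  have hq0 : 0 < q := by linarith
  set ε' := ε / (q + 1) ^ 2 with hε'
  have hε'0 : 0 < ε' := by positivity
  obtain ⟨η, hη, hc⟩ := compare hEQ D w₀ ε' hε'0
  have t1 : Tendsto (fun t : ℝ => q * t) atTop atTop := tendsto_id.const_mul_atTop hq0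
  have t2 : Tendsto (fun t : ℝ => q ^ 2 * t) atTop atTop :=
    tendsto_id.const_mul_atTop (by positivity)
  filter_upwards [h η hη, hc, t1.eventually hc, t2.eventually hc] with t ⟨w, hw, hw2⟩ c0 c1 c2
  have hww : |w₀ - w| ≤ η := by rwa [abs_sub_comm]
  have h00 : |w₀ - w₀| ≤ η := by rw [sub_self, abs_zero]; exact hη.le
  have e0 := c0 w₀ w h00 hw hww
  have e1 := c1 w w₀ hw h00 hw
  have e2 := c2 w₀ w h00 hw hww
  have e3 : ε' * (q ^ 2 * t) + 2 * (ε' * (q * t)) + ε' * t = ε * t := by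
    rw [hε']
    field_simp
    ring
  linarith

end

end Pool.Agent.H15.BP
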